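import Pool.Agent.H586.GLU.Stm

/-!
# Linear and bilinear local observables
-/

set_option autoImplicit false
set_option linter.unusedSectionVars false
set_option linter.unusedVariables false

open MeasureTheory Matrix Finset Filter Topology
open scoped Matrix.Norms.Frobenius

namespace Pool.Agent.H297.GLU

open Pool.Agent.H586.GLU
open Pool.Agent.N990 hiding CB CB_nonneg dd_le
open Pool.Agent.N109.Slab

noncomputable section

variable {N D L : ℕ} {G : Subgroup (UU N)} {W : Finset (Site D)} {K : ℝ}

/-- the fields supported at one site -/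
def sg (y : Site D) : (Lab D L → Mt N) →ₗ[ℝ] MF N D L :=
  LinearMap.single ℝ (fun _ : Site D => Lab D L → Mt N) y

theorem sg_apply (y : Site D) (B : Lab D L → Mt N) (x : Site D) :
    (sg y B : MF N D L) x = if x = y then B else 0 := by
  unfold sg
  rw [LinearMap.single_apply, Pi.single_apply]

/-- a local functional depends on the restriction only -/
theorem red (l : MF N D L →ₗ[ℝ] ℝ) (hl : ∀ A, |l A| ≤ K * nu W A) (A : MF N D L) :
    l A = ∑ y ∈ W, l (sg y (A y)) := by
  have h0 : nu W (A - ∑ y ∈ W, sg y (A y)) = 0 := by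
    refine le_antisymm (nu_le le_rfl fun x hx a => ?_) (nu_nonneg _ _)
    have h1 : (∑ y ∈ W, sg y (A y) : MF N D L) x = A x := by
      rw [Finset.sum_apply]
      simp only [sg_apply]
      rw [Finset.sum_ite_eq, if_pos hx]
    rw [Pi.sub_apply, Pi.sub_apply, h1, sub_self, norm_zero]
  have h1 := hl (A - ∑ y ∈ W, sg y (A y))
  rw [h0, mul_zero] at h1
  have h2 := abs_eq_zero.1 (le_antisymm h1 (abs_nonneg _))
  rw [map_sub, map_sum, sub_eq_zero] at h2
  exact h2

theorem red2 (q : MF N D L →ₗ[ℝ] MF N D L →ₗ[ℝ] ℝ) (hq : ∀ A B, |q A B| ≤ K * nu W A * nu W B)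
    (A B : MF N D L) : q A B = ∑ x ∈ W, ∑ y ∈ W, q (sg x (A x)) (sg y (B y)) := by
  have h1 : q A B = ∑ x ∈ W, q (sg x (A x)) B := by
    have h2 := red (K := K * nu W B) (q.flip B) (fun A => by
      rw [LinearMap.flip_apply]
      exact (hq A B).trans (le_of_eq (by ring))) A
    simpa only [LinearMap.flip_apply] using h2
  rw [h1]
  refine Finset.sum_congr rfl fun x _ => ?_
  exact red (K := K * nu W (sg x (A x))) (q (sg x (A x))) (fun B => hq _ B) B

theorem mt_mul (g h : G) : mt (g * h) = mt g * mt h := rfl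

theorem vt_apply {X : Mt N} {γ : ℝ → G} (hγ : Grp X γ) (ω : SF D L) (σ : Cf G D L) (t : ℝ)
    (y : Site D) (a : Lab D L) : Yf (vt γ ω t * σ) y a =
      NormedSpace.exp (t • (ω y a • X)) * mt (σ y a) - 1 := by
  have h1 : mt ((vt γ ω t * σ) y a) = mt (γ (t * ω y a)) * mt (σ y a) := rfl
  unfold Yf
  rw [h1, hγ, mul_smul]

theorem vt_zero {X : Mt N} {γ : ℝ → G} (hγ : Grp X γ) (ω : SF D L) (σ : Cf G D L) :
    Yf (vt γ ω 0 * σ) = Yf σ := by
  funext y a
  rw [vt_apply hγ, zero_smul, NormedSpace.exp_zero, one_mul]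
  rfl

/-- the derivative of the field at a site -/
theorem Yf_der {X : Mt N} {γ : ℝ → G} (hγ : Grp X γ) (ω : SF D L) (σ : Cf G D L) (y : Site D) :
    HasDerivAt (fun t => Yf (vt γ ω t * σ) y) ((cf ω X + Tm ω X (Yf σ)) y) 0 := by
  refine hasDerivAt_pi.2 fun a => ?_
  have h1 : (fun t => Yf (vt γ ω t * σ) y a) =
      fun t => NormedSpace.exp (t • (ω y a • X)) * Pool.Agent.N990.mt (σ y a) - 1 := by
    funext t
    exact vt_apply hγ ω σ t y a
  have h2 : (cf ω X + Tm ω X (Yf σ)) y a =
      NormedSpace.exp ((0 : ℝ) • (ω y a • X)) * (ω y a • X) * mt (σ y a) := by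
    rw [zero_smul, NormedSpace.exp_zero, one_mul]
    change ω y a • X + ω y a • (X * (mt (σ y a) - 1)) = _
    rw [← smul_add, mul_sub, mul_one, add_sub_cancel, smul_mul_assoc]
  rw [h1, h2]
  exact ((hasDerivAt_exp_smul_const (𝕂 := ℝ) (ω y a • X) (0 : ℝ)).mul_const (mt (σ y a))).sub_const 1

theorem mt_cont : Continuous (fun g : G => mt g) := by
  unfold Pool.Agent.N990.mt
  fun_prop

theorem Yf_cont (y : Site D) : Continuous fun σ : Cf G D L => Yf σ y := by
  have := mt_cont (G := G)
  unfold Yf
  fun_prop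

theorem obs : S_OBS := by
  intro N D L G W K
  constructor
  · intro l hl
    have hc : ∀ y : Site D, Continuous (l.comp (sg y)) := fun y =>
      LinearMap.continuous_of_finiteDimensional _
    constructor
    · intro _ _
      have := sctG (G := G)
      have h1 : Continuous fun σ : Cf G D L => l (Yf σ) := by
        have h2 : (fun σ : Cf G D L => l (Yf σ)) = fun σ => ∑ y ∈ W, (l.comp (sg y)) (Yf σ y) := by
          funext σ
          exact red l hl _
        rw [h2]
        exact continuous_finsetSum _ fun y _ => (hc y).comp (Yf_cont y)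
      exact h1.measurable
    · intro X γ hγ ω σ
      have h2 : (fun t => l (Yf (vt γ ω t * σ))) =
          fun t => ∑ y ∈ W, (l.comp (sg y)).toContinuousLinearMap (Yf (vt γ ω t * σ) y) := by
        funext t
        exact red l hl _
      rw [h2, red l hl]
      refine HasDerivAt.fun_sum fun y _ => ?_
      exact ((l.comp (sg y)).toContinuousLinearMap.hasFDerivAt.comp_hasDerivAt (0 : ℝ)
        (Yf_der hγ ω σ y))
  · intro q hq
    constructor
    · intro _ _
      have := sctG (G := G)
      have h1 : Continuous fun σ : Cf G D L => q (Yf σ) (Yf σ) := by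
        have h2 : (fun σ : Cf G D L => q (Yf σ) (Yf σ)) = fun σ => ∑ x ∈ W, ∑ y ∈ W,
            (q.compl₁₂ (sg x) (sg y)).toContinuousBilinearMap (Yf σ x) (Yf σ y) := by
          funext σ
          exact red2 q hq _ _
        rw [h2]
        refine continuous_finsetSum _ fun x _ => continuous_finsetSum _ fun y _ => ?_
        exact ((q.compl₁₂ (sg x) (sg y)).toContinuousBilinearMap.continuous.comp
          (Yf_cont x)).clm_apply (Yf_cont y)
      exact h1.measurable
    · intro X γ hγ ω σ
      have h2 : (fun t => q (Yf (vt γ ω t * σ)) (Yf (vt γ ω t * σ))) =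
          fun t => ∑ x ∈ W, ∑ y ∈ W, (q.compl₁₂ (sg x) (sg y)).toContinuousBilinearMap
            (Yf (vt γ ω t * σ) x) (Yf (vt γ ω t * σ) y) := by
        funext t
        exact red2 q hq _ _
      rw [h2, red2 q hq, red2 q hq (Yf σ), ← Finset.sum_add_distrib]
      refine HasDerivAt.fun_sum fun x _ => ?_
      rw [← Finset.sum_add_distrib]
      refine HasDerivAt.fun_sum fun y _ => ?_
      have h3 := ((q.compl₁₂ (sg x) (sg y)).toContinuousBilinearMap).hasDerivAt_of_bilinear
        (fun _ => Yf_der hγ ω σ x) (fun _ => Yf_der hγ ω σ y)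
      rw [vt_zero hγ, add_comm] at h3
      exact h3

end

end Pool.Agent.H297.GLU
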